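import Mathlib
import Pool.Agent.Y399.RD.C

/-!
# Lehmer's problem for polynomials with a large discriminant

Mahler's inequality says that `|disc f| ≤ n ^ n M(f) ^ (2 n - 2)` for a polynomial of degree `n`, so
Lehmer's inequality is known if `|disc f| ≥ ((1 + ε) n) ^ n`.  It is shown here that the discriminant
can be much smaller: if `f` is an irreducible integer polynomial of degree `n` with `M(f) > 1`, no
two distinct zeros of which have a root of unity as quotient, and if `|disc f| ≥ (n / T) ^ n`, then

  `M(f) ≥ exp (c (log log (16 + T) / log (16 + T)) ^ 3)`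

with an absolute constant `c > 0`.  This is Dobrowolski's bound with the degree `n` replaced by `T`
(`T = n` is always allowed).  So Lehmer's inequality holds for these polynomials as soon as the root
discriminant `|disc f| ^ (1 / n)` is at least `δ n` with any fixed `δ > 0`.  Conversely, a polynomial
with `M(f) = 1 + ε` has `|disc f| ≤ (n / T) ^ n` with a large `T = T(ε)`, a sharpening of Mahler's
inequality for small Mahler measures.

The second part is the same for the integers `α` of a number field `K` of degree `n` with
`K = ℚ(α ^ m)` for all `m ≥ 1`, in terms of the discriminant of the field: Lehmer's inequality holds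
for them if the root discriminant of `K` is at least `δ n`.

Method: the energy inequality for the conjugates of `α` (with multiplicity) and of its powers
`α ^ p`, `p` prime, which gives Dobrowolski's theorem if the discriminants of `α` and of the `α ^ p`
are bounded by `1` from below; but the discriminant of `α ^ p` is divisible by that of `α`.
-/

set_option autoImplicit false

open Polynomial Module IntermediateField

namespace Pool.Agent.Results.MP_7ab245_nt.LargeDiscriminant

/-- **Dobrowolski's bound in terms of the discriminant.** There is an absolute constant `c > 0` with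
the following two properties.

1. Let `f` be an irreducible integer polynomial of degree `n` with `M(f) > 1` such that no quotient
   of two distinct zeros is a root of unity, and let `T > 0` with `(n / T) ^ n ≤ |disc f|`. Then
   `M(f) ≥ exp (c (log log (16 + T) / log (16 + T)) ^ 3)`.
2. Let `K` be a number field of degree `n` with discriminant `d`, let `α` be an integer of `K`, not
   `0` or a root of unity, with `K = ℚ(α ^ m)` for all `m ≥ 1`, and let `T > 0` with
   `(n / T) ^ n ≤ |d|`. Then the same bound holds for the minimal polynomial of `α`. -/
theorem result : ∃ c : ℝ, 0 < c ∧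
    (∀ f : ℤ[X], Irreducible f → 1 < (f.map (Int.castRingHom ℂ)).mahlerMeasure →
      (∀ z w : ℂ, aeval z f = 0 → aeval w f = 0 → z ≠ w → ∀ m : ℕ, 0 < m → z ^ m ≠ w ^ m) →
      ∀ T : ℝ, 0 < T → ((f.natDegree : ℝ) / T) ^ f.natDegree ≤ |(f.discr : ℝ)| →
      Real.exp (c * (Real.log (Real.log (16 + T)) / Real.log (16 + T)) ^ 3) ≤
        (f.map (Int.castRingHom ℂ)).mahlerMeasure) ∧
    (∀ (K : Type) [Field K] [NumberField K] (α : NumberField.RingOfIntegers K), α ≠ 0 →
      (∀ m : ℕ, 0 < m → α ^ m ≠ 1) → (∀ m : ℕ, 0 < m → ℚ⟮(α : K) ^ m⟯ = ⊤) →
      ∀ T : ℝ, 0 < T →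
      ((finrank ℚ K : ℝ) / T) ^ finrank ℚ K ≤ |(NumberField.discr K : ℝ)| →
      Real.exp (c * (Real.log (Real.log (16 + T)) / Real.log (16 + T)) ^ 3) ≤
        ((minpoly ℤ (α : K)).map (Int.castRingHom ℂ)).mahlerMeasure) :=
  Pool.Agent.Y399.RD.main

end Pool.Agent.Results.MP_7ab245_nt.LargeDiscriminant
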