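import Mathlib
import Pool.Agent.Y642.LZ.G

/-!
# Lehmer's problem for irreducible polynomials with many zeros in local fields

Let `f` be an irreducible integer polynomial of degree `n` with `M(f) > 1`. Let `K_i` be finitely
many nonarchimedean local fields of characteristic zero over distinct primes `p_i`, with
ramification index `e_i` and residue field with `q_i` elements. Let `Y_i` be a finite set of zeros
of `f` in `K_i`, no two of which differ by a root of unity only, and let `R_i` be the number of its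
elements. Let `R` be the number of real zeros of `f`. Put

* `S = R ^ 2 / 96 + ∑ R_i ^ 2 log p_i / (e_i (q_i - 1))`, `W = ∑ R_i log p_i / e_i`.

Then

* `k S ≤ W + n (2 + log (n k)) + 3 n k ^ 2 log M(f)` for all `k ≥ 1`, if `M(f) < 2`;
* `M(f) ≥ min (2, exp (h / 80))` if `S ≥ n`, where
  `h = min (S / n, S ^ 2 / (n ^ 2 (2 + log n) + n W))`;
* in particular `M(f) ≥ exp (1 / 80)` if `S ≥ n` and `S ^ 2 ≥ n ^ 2 (2 + log n) + n W`;
* `M(f) ≥ min (2, exp (h' / 320))` if `S ≥ 2 n` and `R_i ≥ 2 (q_i - 1)` for all `i`, where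
  `h' = min (S / n, S ^ 2 / (n ^ 2 (2 + log n)))`.

The method: the conjugates of `α, α ^ 2, …, α ^ k` at each place fall into few residue classes, so
the product of their differences is divisible by a high power of each `p_i`; on the other hand it is
bounded in terms of the Mahler measure, with a gain if many conjugates are real.
-/

set_option autoImplicit false

open Polynomial ValuativeRel

universe u v

namespace Pool.Agent.Results.MP_7ab245_nt.LocalZeros

/-- A nonarchimedean local field `K` of characteristic zero (in the sense of Mathlib) with the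
prime number `p` below it and its ramification index `e`, so `p 𝒪 = 𝔪 ^ e`. -/
structure Place : Type (u + 1) where
  p : ℕ
  hp : p.Prime
  K : Type u
  [fld : Field K]
  [val : ValuativeRel K]
  [top : TopologicalSpace K]
  [loc : IsNonarchimedeanLocalField K]
  [char0 : CharZero K]
  e : ℕ
  he : 1 ≤ e
  ram : Ideal.span {((p : ℕ) : 𝒪[K])} = 𝓂[K] ^ e

attribute [instance] Place.fld Place.val Place.top Place.loc Place.char0

/-- the number of elements of the residue field -/
noncomputable def Place.q (D : Place.{u}) : ℕ := Nat.card 𝓀[D.K]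

/-- `Y` consists of zeros of `f`, and no two of its elements differ by a root of unity only -/
def ZeroSet (f : ℤ[X]) {K : Type u} [Field K] (Y : Finset K) : Prop :=
  (∀ x ∈ Y, aeval x f = 0) ∧ ∀ x ∈ Y, ∀ y ∈ Y, ∀ m : ℕ, 1 ≤ m → x ^ m = y ^ m → x = y

/-- the number of real zeros of `f` -/
noncomputable def realZeros (f : ℤ[X]) : ℕ := {x : ℝ | aeval x f = 0}.ncard

/-- the sum `S` -/
noncomputable def sqSum (f : ℤ[X]) {ι : Type v} [Fintype ι] (D : ι → Place.{u})
    (Y : ∀ i, Finset (D i).K) : ℝ :=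
  (realZeros f : ℝ) ^ 2 / 96 +
    ∑ i, ((Y i).card : ℝ) ^ 2 * Real.log (D i).p / ((D i).e * ((D i).q - 1))

/-- the sum `W` -/
noncomputable def linSum {ι : Type v} [Fintype ι] (D : ι → Place.{u})
    (Y : ∀ i, Finset (D i).K) : ℝ :=
  ∑ i, ((Y i).card : ℝ) * Real.log (D i).p / (D i).e

/-- the inequality for the first `k` powers, with `n` the degree and `M` the Mahler measure -/
def PowerIneq (n : ℕ) (M S W : ℝ) : Prop :=
  ∀ k : ℕ, 1 ≤ k → k * S ≤ W + n * (2 + Real.log (n * k)) + 3 * n * k ^ 2 * Real.log M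

/-- **Lehmer's problem for irreducible polynomials with many zeros in local fields.** -/
theorem result (f : ℤ[X]) (hf : Irreducible f) (M : ℝ)
    (hM : M = (f.map (Int.castRingHom ℂ)).mahlerMeasure) (hM1 : 1 < M)
    (n : ℕ) (hn : n = f.natDegree) {ι : Type v} [Fintype ι] (D : ι → Place.{u})
    (hinj : Function.Injective fun i => (D i).p) (Y : ∀ i, Finset (D i).K)
    (hY : ∀ i, ZeroSet f (Y i)) (S W : ℝ) (hS : S = sqSum f D Y) (hW : W = linSum D Y) :
    (M < 2 → PowerIneq n M S W) ∧
    (n ≤ S → min 2 (Real.exp (min (S / n) (S ^ 2 / (n ^ 2 * (2 + Real.log n) + n * W)) / 80)) ≤ M) ∧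
    (n ≤ S → n ^ 2 * (2 + Real.log n) + n * W ≤ S ^ 2 → Real.exp (1 / 80) ≤ M) ∧
    ((∀ i, 2 * ((D i).q - 1) ≤ (Y i).card) → 2 * n ≤ S →
      min 2 (Real.exp (min (S / n) (S ^ 2 / (n ^ 2 * (2 + Real.log n))) / 320)) ≤ M) := by
  subst hM hn
  have hinj' : Set.InjOn (fun i => (D i).p) (Finset.univ : Finset ι) := hinj.injOn
  let D' : ι → Pool.Agent.Y642.LZ.Place.{u} := fun i =>
    { p := (D i).p, hp := (D i).hp, K := (D i).K, e := (D i).e, he := (D i).he, ram := (D i).ram }
  have e1 : S = Pool.Agent.Y642.LZ.placeSq f Finset.univ D' (fun i => (Y i).card) := hS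
  have e2 : W = Pool.Agent.Y642.LZ.placeLin Finset.univ D' (fun i => (Y i).card) := hW
  have hq : ∀ i, 1 ≤ (D i).q := by
    intro i
    have h1 := (D' i).toLoc.two_le_q
    rw [Pool.Agent.Y642.LZ.Place.toLoc_q] at h1
    exact le_trans (by norm_num) h1
  refine ⟨fun h2 k hk => ?_,
    fun h => Pool.Agent.Y642.LZ.place_lower f hf hM1 Finset.univ D' hinj' Y
      (fun i _ => (hY i).1) (fun i _ => (hY i).2) e1 e2 h,
    fun h h2 => Pool.Agent.Y642.LZ.place_lehmer f hf hM1 Finset.univ D' hinj' Y
      (fun i _ => (hY i).1) (fun i _ => (hY i).2) e1 e2 h h2,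
    fun hR h => Pool.Agent.Y642.LZ.place_many f hf hM1 Finset.univ D' hinj' Y
      (fun i _ => (hY i).1) (fun i _ => (hY i).2) e1 (fun i _ => ?_) h⟩
  · rw [e1, e2]
    exact Pool.Agent.Y642.LZ.place_all f hf hM1 h2 Finset.univ D' hinj' Y
      (fun i _ => (hY i).1) (fun i _ => (hY i).2) k hk
  · have h3 : (2 * ((D i).q - 1) : ℕ) ≤ (Y i).card := hR i
    have h4 : ((2 * ((D i).q - 1) : ℕ) : ℝ) ≤ (Y i).card := by exact_mod_cast h3
    rw [Nat.cast_mul, Nat.cast_sub (hq i)] at h4
    exact_mod_cast h4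

end Pool.Agent.Results.MP_7ab245_nt.LocalZeros
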