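import Mathlib
import Pool.Agent.Y947.DP.Fin

/-!
# Lehmer's problem and the mean of `log⁺ |f|`

Let `m(f) = log M(f)` be the logarithmic Mahler measure, that is the mean of `log |f|` over the unit
circle, and let `m⁺(f)` be the mean of `log⁺ |f| = max (0, log |f|)` over the unit circle. There is
an absolute constant `c > 0` such that

  `m(f) ≥ c / (1 + m⁺(f)) ^ 3`

for every irreducible integer polynomial `f` with `M(f) > 1`. Neither the degree nor the position of
the zeros matters. Since `m⁺(f) ≤ log (max |f|) ≤ log L(f)`, where `L(f)` is the length (the sum of
the absolute values of the coefficients), this contains a form of Dobrowolski's theorem in which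
the degree is replaced by the length: `m(f) ≥ c / (1 + log L(f)) ^ 3`.

Method. For the reflected zeros `b_j` (`b = z` for `|z| ≤ 1` and `b = 1 / conj z` otherwise) let
`U(x) = - ∑ log |1 - x conj b_j|`. An obstacle problem for the Poisson semigroup (solved by value
iteration; the cost is bounded by an energy inequality) gives a positive harmonic function `W` in
the disc with `W ≥ -U`, with radial derivative bounded below by a multiple of the degree `n` and
with `W(0) ≤ 2 m⁺(f)`. The positive harmonic function `H = 1 + U + 2 W` controls the number of
the `b_j` in every window; from this one obtains contraction factors `1 - ε_j`, adapted to the local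
density of the zeros, with `∑ ε_j` small and
`∑ -log |1 - (1 - ε_i) (1 - ε_j) b_i conj b_j| ≤ C n (1 + m⁺(f)) log (1/κ)`.
The kernel `-log |1 - x conj y|` is positive semidefinite; it is applied to the contracted points
and their `p`-th powers, for the primes `p` in an interval of length about `B ^ 2 log B`, where
`B = 1 + m⁺(f)`. The mutual energies are bounded by the Frobenius congruences and by the
integrality of resultants, the self energies of the `p`-th powers by comparison with the energy of
the points themselves. For the primes `p` with `ℚ(z ^ p) ≠ ℚ(z)` the field `ℚ(z)` contains the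
`p`-th roots of unity. There the `p`-th powers are replaced by their averages over the rotations of
order `p`, the Frobenius congruence by `∏ |σ(α ^ p) - τ(α ^ (p ^ 2))| ≥ p ^ (p n)`, which follows
from congruences modulo `(1 - ζ_p)`, and the multiplicities of the points `α ^ (p ^ 2)` are bounded
by `p` (Kummer theory).
-/

set_option autoImplicit false

open Polynomial

namespace Pool.Agent.Results.MP_7ab245_nt.LogPlusMean

theorem result : ∃ c : ℝ, 0 < c ∧ ∀ f : ℤ[X], Irreducible f →
    1 < (f.map (Int.castRingHom ℂ)).mahlerMeasure →
      Real.exp (c / (1 + Real.circleAverage (fun z : ℂ => Real.posLog ‖aeval z f‖) 0 1) ^ 3) ≤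
        (f.map (Int.castRingHom ℂ)).mahlerMeasure := by
  obtain ⟨c, hc0, hc⟩ := Y947.DP.irr_case3
  refine ⟨c, hc0, ?_⟩
  intro f hf hM
  have h1 := hc f hf hM
  have hpos : 0 < (f.map (Int.castRingHom ℂ)).mahlerMeasure := by linarith
  rw [← Real.exp_log hpos]
  exact Real.exp_le_exp.mpr h1

end Pool.Agent.Results.MP_7ab245_nt.LogPlusMean
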