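import Mathlib
import Pool.Agent.Y145.LM.D

/-!
# Lehmer's problem and the first power sums of the zeros

Let `f` be an irreducible integer polynomial of degree `n` with `M(f) > 1`. For `m ≥ 1` let `T_m` be
the sum of the distinct `m`-th powers of the zeros of `f` (Newton's power sum `S_m`, if no two
different zeros have the same `m`-th power). Then for every nonempty finite set `J` of exponents
between `1` and `k`, where `16 ^ k ≤ n`,

`M(f) ≥ min (2, exp ((∑_{m ∈ J} T_m ^ 2 - 9 n log (2 n)) / (9 n |J| k)))`.

For `J = {1, …, k}`: if `∑_{m ≤ k} T_m ^ 2 ≥ 9 n (c k ^ 2 + log (2 n))` for some `k ≤ log n / log 16`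
then `M(f) ≥ min (2, exp c)`. So Lehmer's inequality holds for the irreducible polynomials for which
the sum of the squares of the first `√(log n)` power sums is at least a constant multiple of
`n log (2 n)`, that is, the mean square is at least a multiple of `n √(log (2 n))`.

Method: a weighted energy inequality (logarithmic energy of the conjugates of `α, α ^ 2, …, α ^ k`,
those of `α ^ m` with the weight `a_m ≥ 0`); all discriminants and resultants of the minimal
polynomials of the powers are integers different from zero, hence
`|∑ a_m T_m| ^ 2` is at most a multiple of `n k (∑ a_m) ^ 2 log M(f) + n log (2 n) ∑ a_m ^ 2`.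
One takes for the weights the positive, and then the negative, parts of the integers `T_m`. The
transfer from polynomials to number fields is that of `Pool/Agent/H389R3/` (starting files).
-/

set_option autoImplicit false

open Polynomial

namespace Pool.Agent.Results.MP_7ab245_nt.PowerSums

/-- The sum of the distinct `m`-th powers of the complex zeros of `f`. -/
noncomputable def powerSum (f : ℤ[X]) (m : ℕ) : ℂ :=
  ∑ᶠ w ∈ {w : ℂ | ∃ z : ℂ, aeval z f = 0 ∧ w = z ^ m}, w

/-- **Lehmer's problem and power sums.** Let `f` be an irreducible integer polynomial of degree `n`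
with Mahler measure greater than one, and let `J` be a nonempty finite set of integers between `1`
and `k`, where `16 ^ k ≤ n`. Then
`M(f) ≥ min (2, exp ((∑_{m ∈ J} |T_m| ^ 2 - 9 n log (2 n)) / (9 n |J| k)))`, where `T_m` is the sum of
the distinct `m`-th powers of the zeros of `f`. -/
theorem result (f : ℤ[X]) (hf : Irreducible f)
    (hM : 1 < (f.map (Int.castRingHom ℂ)).mahlerMeasure) (J : Finset ℕ) (k : ℕ)
    (hJ0 : J.Nonempty) (hJ : ∀ m ∈ J, 1 ≤ m ∧ m ≤ k) (hn : 16 ^ k ≤ f.natDegree) :
    min 2 (Real.exp ((∑ m ∈ J, ‖powerSum f m‖ ^ 2 -
      9 * f.natDegree * Real.log (2 * f.natDegree)) / (9 * f.natDegree * J.card * k))) ≤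
      (f.map (Int.castRingHom ℂ)).mahlerMeasure :=
  Pool.Agent.Y145.LM.main f hf hM J k hJ0 hJ hn

end Pool.Agent.Results.MP_7ab245_nt.PowerSums
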